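import Pool.Agent.D0H41.SF.Stm

/-!
# SF ONE: a nonzero algebraic integer has a conjugate of absolute value at least one (helper52)
-/

set_option autoImplicit false

namespace Pool.Agent.D0H52.SF

open Polynomial
open Pool.Agent.D0H41.SF

theorem algQb : Algebra.IsAlgebraic ℚ Qb := AlgebraicClosure.isAlgebraic ℚ

/-- every complex root of the minimal polynomial is the value of an embedding -/
theorem root_emb (x : Qb) (z : ℂ) (hz : aeval z (minpoly ℚ x) = 0) : ∃ φ : Qb →+* ℂ, φ x = z := by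
  have := algQb
  obtain ⟨φ, hφ⟩ := (IntermediateField.exists_algHom_of_splits_of_aeval (K := ℂ) (F := ℚ) (E := Qb)
    (fun s => ⟨(Algebra.IsAlgebraic.isAlgebraic s).isIntegral, IsAlgClosed.splits _⟩) (x := x) (y := z)
    hz)
  exact ⟨φ.toRingHom, hφ⟩

theorem prod_le (s : Multiset ℂ) (h : ∀ z ∈ s, ‖z‖ ≤ 1) : ‖s.prod‖ ≤ 1 := by
  induction s using Multiset.induction_on with
  | empty => simp
  | cons a s ih =>
    rw [Multiset.prod_cons, norm_mul]
    exact mul_le_one₀ (h a (by simp)) (norm_nonneg _) (ih fun z hz => h z (by simp [hz]))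

theorem t_ONE : S_ONE := by
  intro x hx hx0
  by_contra hcon
  unfold Lrg at hcon
  push Not at hcon
  have hxQ : IsIntegral ℚ x := hx.tower_top
  have hm : minpoly ℚ x = (minpoly ℤ x).map (algebraMap ℤ ℚ) := minpoly.isIntegrallyClosed_eq_field_fractions' ℚ hx
  set f : ℂ[X] := (minpoly ℤ x).map (algebraMap ℤ ℂ) with hf
  have hmon : f.Monic := (minpoly.monic hx).map _
  have hsp : f.Splits := IsAlgClosed.splits f
  have hdeg : f.natDegree ≠ 0 := by
    rw [hf, (minpoly.monic hx).natDegree_map]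
    exact (minpoly.natDegree_pos hx).ne'
  have h1 := hsp.coeff_zero_eq_prod_roots_of_monic hmon
  have h2 : f.coeff 0 = ((minpoly ℤ x).coeff 0 : ℂ) := by
    rw [hf, coeff_map]
    rfl
  have h3 : (minpoly ℤ x).coeff 0 ≠ 0 := by
    intro h
    have h' : (minpoly ℚ x).coeff 0 ≠ 0 := minpoly.coeff_zero_ne_zero hxQ hx0
    apply h'
    rw [hm, coeff_map, h, map_zero]
  have h4 : ∀ z ∈ f.roots, ‖z‖ < 1 := by
    intro z hz
    have : aeval z (minpoly ℚ x) = 0 := by
      rw [hm, aeval_map_algebraMap, aeval_def, ← eval_map]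
      exact (mem_roots hmon.ne_zero).1 hz
    obtain ⟨φ, hφ⟩ := root_emb x z this
    rw [← hφ]
    exact hcon φ
  have h5 : f.roots.card = f.natDegree := hsp.natDegree_eq_card_roots.symm
  obtain ⟨a, ha⟩ := Multiset.card_pos_iff_exists_mem.1 (by rw [h5]; exact Nat.pos_of_ne_zero hdeg)
  obtain ⟨s, hs⟩ := Multiset.exists_cons_of_mem ha
  have h6 : ‖f.roots.prod‖ < 1 := by
    rw [hs, Multiset.prod_cons, norm_mul]
    have h7 : ‖s.prod‖ ≤ 1 := prod_le s fun z hz => (h4 z (by rw [hs]; simp [hz])).le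
    calc ‖a‖ * ‖s.prod‖ ≤ ‖a‖ * 1 := mul_le_mul_of_nonneg_left h7 (norm_nonneg _)
      _ < 1 := by rw [mul_one]; exact h4 a ha
  have h8 : ‖((minpoly ℤ x).coeff 0 : ℂ)‖ < 1 := by
    rw [← h2, h1, norm_mul, norm_pow, norm_neg, norm_one, one_pow, one_mul]
    exact h6
  rw [Complex.norm_intCast] at h8
  have h9 : |(minpoly ℤ x).coeff 0| < 1 := by exact_mod_cast h8
  exact h3 (Int.abs_lt_one_iff.1 h9)

end Pool.Agent.D0H52.SF
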