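import Pool.Agent.D0H41.SF.Stm
import Pool.Agent.D0H52.SF.One

/-!
# SF PKF: packing in a field (helper52)
-/

set_option autoImplicit false

namespace Pool.Agent.D0H52.SF

open Polynomial
open Pool.Agent.D0H41.SF

/-- embeddings extend -/
theorem ext_emb (L : IntermediateField ℚ Qb) (φ : L →+* ℂ) : ∃ ψ : Qb →+* ℂ, ∀ x : L, ψ x = φ x := by
  have := algQb
  obtain ⟨ψ, hψ⟩ := IntermediateField.exists_algHom_of_splits (K := ℂ) (F := ℚ) (E := Qb) (L := L)
    (fun s => ⟨(Algebra.IsAlgebraic.isAlgebraic s).isIntegral, IsAlgClosed.splits _⟩) (RingHom.toRatAlgHom φ)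
  refine ⟨ψ.toRingHom, fun x => ?_⟩
  have := congrArg (fun g => g x) hψ
  exact this

theorem t_PKF (hP : S_PAK) : S_PKF := by
  intro L _ S T l d hl hT hS hsep hd
  classical
  have hNF : NumberField L := @NumberField.mk _ _ _ (by exact ‹FiniteDimensional ℚ L›)
  choose ψ hψ using ext_emb L
  let g : Qb →ₗ[ℚ] ((L →+* ℂ) → ℂ) :=
    { toFun := fun x φ => ψ φ x
      map_add' := by
        intro x y
        funext φ
        simp
      map_smul' := by
        intro c x
        funext φ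
        exact map_rat_smul (ψ φ) c x }
  have hg : ∀ x φ, g x φ = ψ φ x := fun _ _ => rfl
  let W : Submodule ℝ ((L →+* ℂ) → ℂ) := Submodule.span ℝ (g '' (S : Set Qb))
  -- the dimension
  let U : Submodule ℚ Qb := Submodule.span ℚ (S : Set Qb)
  have : FiniteDimensional ℚ U := FiniteDimensional.span_finset ℚ S
  have hWd : Module.finrank ℝ W ≤ d := by
    refine le_trans ?_ hd
    let b := Module.finBasis ℚ U
    have h1 : W ≤ Submodule.span ℝ (Set.range fun i => g (b i : Qb)) := by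
      rw [Submodule.span_le]
      rintro _ ⟨x, hx, rfl⟩
      have hxU : x ∈ U := Submodule.subset_span hx
      have h2 : x = ∑ i, b.repr ⟨x, hxU⟩ i • (b i : Qb) := by
        have h3 := congrArg (fun u : U => (u : Qb)) (b.sum_repr ⟨x, hxU⟩)
        simp only [Submodule.coe_sum, Submodule.coe_smul] at h3
        exact h3.symm
      rw [h2, map_sum]
      apply Submodule.sum_mem
      intro i _
      rw [map_smul]
      have h4 : (b.repr ⟨x, hxU⟩ i) • g (b i : Qb) = ((b.repr ⟨x, hxU⟩ i : ℚ) : ℝ) • g (b i : Qb) := by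
        funext φ
        simp [Rat.smul_def]
      rw [h4]
      exact Submodule.smul_mem _ _ (Submodule.subset_span ⟨i, rfl⟩)
    refine (Submodule.finrank_mono h1).trans ?_
    refine (finrank_range_le_card _).trans ?_
    rw [Fintype.card_fin]
  -- norms
  have hL : ∀ (θ : Qb →+* ℂ) (x : Qb), x ∈ L → ∃ φ : L →+* ℂ, g x φ = θ x := by
    intro θ x hx
    refine ⟨θ.comp (algebraMap L Qb), ?_⟩
    rw [hg, show x = ((⟨x, hx⟩ : L) : Qb) from rfl, hψ]
    rfl
  have hinj : Set.InjOn g (S : Set Qb) := by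
    intro x hx y hy hxy
    by_contra hne
    obtain ⟨θ, hθ⟩ := hsep x hx y hy hne
    obtain ⟨φ, hφ⟩ := hL θ (x - y) (L.sub_mem (hS x hx).1 (hS y hy).1)
    rw [← hφ, map_sub, hxy, sub_self] at hθ
    simp only [Pi.zero_apply, norm_zero] at hθ
    linarith
  have hcard : (S.image g).card = S.card := Finset.card_image_of_injOn hinj
  have h5 := hP ((L →+* ℂ) → ℂ) W (S.image g) T l hT hl ?_ ?_
  · rw [hcard] at h5
    refine h5.trans ?_
    apply pow_le_pow_right₀ _ hWd
    have : 0 ≤ 2 * T / l := by positivity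
    linarith
  · intro v hv
    obtain ⟨x, hx, rfl⟩ := Finset.mem_image.1 hv
    refine ⟨Submodule.subset_span ⟨x, hx, rfl⟩, ?_⟩
    rw [pi_norm_le_iff_of_nonneg hT]
    intro φ
    exact (hS x hx).2 (ψ φ)
  · intro v hv w hw hne
    obtain ⟨x, hx, rfl⟩ := Finset.mem_image.1 hv
    obtain ⟨y, hy, rfl⟩ := Finset.mem_image.1 hw
    have hxy : x ≠ y := fun h => hne (by rw [h])
    obtain ⟨θ, hθ⟩ := hsep x hx y hy hxy
    obtain ⟨φ, hφ⟩ := hL θ (x - y) (L.sub_mem (hS x hx).1 (hS y hy).1)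
    rw [← map_sub]
    refine le_trans ?_ (norm_le_pi_norm _ φ)
    rw [hφ]
    exact hθ

end Pool.Agent.D0H52.SF
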